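import Pool.Agent.Y45.MON.StmS

/-!
# Project MON, job S3: the words `X1`
-/

set_option autoImplicit false

namespace Pool.Agent.Y914.MON

open Pool.Agent.TH54.BU Pool.Agent.Y45.MON

theorem len_conj {G : Type} [Group G] (H : GH G) (u g : G) :
    H.len (u⁻¹ * g * u) ≤ H.len g + 2 * H.len u := by
  have h1 := H.len_mul (u⁻¹ * g) u
  have h2 := H.len_mul u⁻¹ g
  rw [H.len_inv] at h2
  omega

theorem fin_conj {G : Type} [Group G] (u g : G) : IsOfFinOrder (u * g * u⁻¹) ↔ IsOfFinOrder g := by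
  simp only [isOfFinOrder_iff_pow_eq_one, conj_pow]
  constructor
  · rintro ⟨n, hn, h⟩
    refine ⟨n, hn, ?_⟩
    have : u * g ^ n = u := by
      rw [mul_inv_eq_one] at h
      exact h
    exact mul_eq_left.mp this
  · rintro ⟨n, hn, h⟩
    exact ⟨n, hn, by rw [h, mul_one, mul_inv_cancel]⟩

theorem xa (hF : FrameStmt) (hB : BddStmt) (hR : Rig2Stmt) : XaStmt := by
  intro G _ H c θ T L K B p L1 Θ n E M _ Q S R0 ρ M1 m2 hR0 hρ hm2 hn1 hn2 a1 b1 ha hsp hb hP hPf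
  -- the length of `P`
  have hlP : H.len (P0 M1 a1 b1) ≤ 2 * R0 + 2 := by
    unfold P0
    have h1 := H.len_mul (a1 * b1 * a1 ^ M1) b1⁻¹
    have h2 := H.len_mul (a1 * b1) (a1 ^ M1)
    have h3 := H.len_mul a1 b1
    have h4 : H.len a1 ≤ 1 := by simpa using hsp 1
    have h5 : H.len (a1 ^ M1) ≤ 1 := by simpa using hsp (M1 : ℤ)
    rw [H.len_inv] at h1
    omega
  have hsh : L.Short (P0 M1 a1 b1) :=
    hB G H c θ T L K B p L1 Θ n E M Q S (2 * R0 + 2) hn2 _ hP hlP hPf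
  obtain ⟨i, u, e, hPu, he0, heT, hu⟩ := hF G H c θ T L (2 * R0 + 2) _ hsh hP hlP
  set t := tb H.D c T (2 * R0 + 2) with ht
  set x := L.x i with hx
  set α := u⁻¹ * a1 * u with hα
  set φ : ℤ := e * m2 with hφ
  have hxinf : ¬ IsOfFinOrder x := (S.prim i).1
  have hla : H.len a1 ≤ 1 := by simpa using hsp 1
  have hlα : H.len α ≤ ρ := by
    have := len_conj H u a1
    rw [← hα] at this
    omega
  have hαf : IsOfFinOrder α := by
    have h1 := (fin_conj u⁻¹ a1).mpr ha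
    rwa [inv_inv] at h1
  have hαz : α ∉ Subgroup.zpowers x := by
    intro hz
    obtain ⟨k, hk⟩ := Subgroup.mem_zpowers_iff.mp hz
    have hk0 : k = 0 := by
      by_contra hk0
      apply hxinf
      rw [← hk] at hαf
      obtain ⟨m, hm, h1⟩ := isOfFinOrder_iff_pow_eq_one.mp hαf
      rw [isOfFinOrder_iff_zpow_eq_one]
      refine ⟨k * m, mul_ne_zero hk0 (by exact_mod_cast hm.ne'), ?_⟩
      rw [zpow_mul, zpow_natCast]
      exact h1
    rw [hk0, zpow_zero] at hk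
    have ha1 : a1 = 1 := by
      have : u⁻¹ * a1 * u = 1 := hk.symm
      calc a1 = u * (u⁻¹ * a1 * u) * u⁻¹ := by group
        _ = 1 := by rw [this]; group
    apply hP
    have : P0 M1 a1 b1 = 1 := by
      unfold P0
      rw [ha1]
      group
    rw [this]
    exact IsOfFinOrder.one
  have hφabs : |φ| = |e| * m2 := by
    rw [hφ, abs_mul, Nat.abs_cast]
  have he1 : 1 ≤ |e| := Int.one_le_abs he0
  have hφ1 : (cst L Θ ρ : ℤ) < |φ| := by
    rw [hφabs]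
    have h1 : (cst L Θ ρ : ℤ) < m2 := by exact_mod_cast hm2
    nlinarith
  have hφ2 : ∀ i, 100 * (|φ| + cst L Θ ρ) ≤ n i := by
    intro j
    have h1 : (100 * ((T * (2 * R0 + 2) + 1) * m2 + cst L Θ ρ) : ℤ) ≤ n j := by
      exact_mod_cast hn1 j
    have h2 : |φ| ≤ (T * (2 * R0 + 2) + 1) * m2 := by
      rw [hφabs]
      have h3 : |e| ≤ (T * (2 * R0 + 2) + 1 : ℤ) := by exact_mod_cast heT
      exact mul_le_mul_of_nonneg_right h3 (by positivity)
    linarith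
  obtain ⟨hr1, hr2⟩ := hR G H c θ T L n M S.fil E Θ S.cone S.hT S.prim ρ φ i α hlα hαz hφ1 hφ2
  set W := α * x ^ φ * α⁻¹ * x ^ (-φ) with hW
  -- the power of `P`
  have hPm : P0 M1 a1 b1 ^ m2 = u * x ^ φ * u⁻¹ := by
    rw [hPu, conj_pow, hφ, zpow_mul, zpow_natCast]
  have hX : X1 M1 m2 a1 b1 = u * W * u⁻¹ := by
    unfold X1
    rw [hPm, hW, hα]
    group
  refine ⟨?_, ?_, ?_⟩
  · rw [hX]
    intro h
    apply hr1
    have h1 : ((u * W * u⁻¹ : G) : G ⧸ M) = (u : G ⧸ M) * (W : G ⧸ M) * (u : G ⧸ M)⁻¹ := rfl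
    rw [h1, fin_conj] at h
    exact h
  · have hE1 : ∀ k : ℤ, E.len (x ^ k) ≤ 1 := fun k => (S.cone.le_one _).mpr (Or.inr ⟨i, k, rfl⟩)
    have hEa : E.len a1 ≤ 1 := (S.cone.le _).trans hla
    have hEu : E.len u ≤ t := (S.cone.le _).trans hu
    have hEP : ∀ k : ℤ, E.len (u * x ^ k * u⁻¹) ≤ 2 * t + 1 := by
      intro k
      have h1 := E.len_mul (u * x ^ k) u⁻¹
      have h2 := E.len_mul u (x ^ k)
      have h3 := hE1 k
      rw [E.len_inv] at h1
      omega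
    unfold X1
    rw [hPm]
    have h1 := E.len_mul (a1 * (u * x ^ φ * u⁻¹) * a1⁻¹) (u * x ^ φ * u⁻¹)⁻¹
    have h2 := E.len_mul (a1 * (u * x ^ φ * u⁻¹)) a1⁻¹
    have h3 := E.len_mul a1 (u * x ^ φ * u⁻¹)
    have h4 := hEP φ
    rw [E.len_inv] at h1 h2
    omega
  · intro z hz hz1 hc
    have hz' : u⁻¹ * z * u ≠ 1 := by
      intro h
      apply hz1
      calc z = u * (u⁻¹ * z * u) * u⁻¹ := by group
        _ = 1 := by rw [h]; group
    have hlz : H.len (u⁻¹ * z * u) ≤ ρ := by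
      have := len_conj H u z
      omega
    apply hr2 _ hlz hz'
    rw [hX] at hc
    have h1 : (((u⁻¹ * z * u : G) : G ⧸ M)) * (W : G ⧸ M) =
        (u : G ⧸ M)⁻¹ * ((z : G ⧸ M) * ((u * W * u⁻¹ : G) : G ⧸ M)) * (u : G ⧸ M) := by
      have : ((u⁻¹ * z * u * W : G) : G ⧸ M) = ((u⁻¹ * (z * (u * W * u⁻¹)) * u : G) : G ⧸ M) := by
        congr 1
        group
      exact this
    have h2 : (W : G ⧸ M) * (((u⁻¹ * z * u : G) : G ⧸ M)) =
        (u : G ⧸ M)⁻¹ * (((u * W * u⁻¹ : G) : G ⧸ M) * (z : G ⧸ M)) * (u : G ⧸ M) := by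
      have : ((W * (u⁻¹ * z * u) : G) : G ⧸ M) = ((u⁻¹ * ((u * W * u⁻¹) * z) * u : G) : G ⧸ M) := by
        congr 1
        group
      exact this
    rw [h1, h2, hc]

end Pool.Agent.Y914.MON
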